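import Mathlib

/-! # Points of a moment curve in a finite union of subspaces -/

namespace Pool.Agent.QNX

open Module Submodule

variable {F : Type*} [Field F] {V : Type*} [AddCommGroup V] [Module F V]

theorem curve_indep {d : ℕ} (t : Fin (d + 1) → V) (ht : LinearIndependent F t) (g : Fin d → F)
    (hg : Function.Injective g) :
    LinearIndependent F (Fin.cons (t 0) (fun a => ∑ i : Fin d, (g a ^ (i : ℕ)) • t i.succ) :
      Fin (d + 1) → V) := by
  rw [Fintype.linearIndependent_iff] at ht ⊢
  intro c hc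
  have h1 : ∑ i, (Fin.cons (c 0) (fun i : Fin d => ∑ a, c a.succ * g a ^ (i : ℕ)) :
      Fin (d + 1) → F) i • t i = 0 := by
    rw [Fin.sum_univ_succ] at hc ⊢
    simp only [Fin.cons_zero, Fin.cons_succ] at hc ⊢
    rw [← hc]
    congr 1
    simp only [Finset.sum_smul, Finset.smul_sum, smul_smul]
    exact Finset.sum_comm
  have h2 := ht _ h1
  have h3 : ∀ i : Fin d, ∑ a, c a.succ * g a ^ (i : ℕ) = 0 := fun i => by simpa using h2 i.succ
  have h4 := Matrix.eq_zero_of_forall_pow_sum_mul_pow_eq_zero (f := g)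
    (v := fun a => c a.succ) hg h3
  refine Fin.cases ?_ ?_
  · simpa using h2 0
  · intro a
    exact congrFun h4 a

/-- a subspace of dimension at most `d` through `t 0` contains at most `d - 1` points of the
moment curve -/
theorem curve_count {d : ℕ} (hd : 0 < d) (t : Fin (d + 1) → V) (ht : LinearIndependent F t)
    (W : Submodule F V) [FiniteDimensional F W] (h0 : t 0 ∈ W) (hW : finrank F W ≤ d) :
    {j : F | ∑ i : Fin d, (j ^ (i : ℕ)) • t i.succ ∈ W}.encard ≤ (d - 1 : ℕ) := by
  by_contra hcon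
  have h1 : ((d : ℕ) : ℕ∞) ≤ {j : F | ∑ i : Fin d, (j ^ (i : ℕ)) • t i.succ ∈ W}.encard := by
    push Not at hcon
    have := Order.add_one_le_of_lt hcon
    have e : (((d - 1 : ℕ) : ℕ∞) + 1) = (d : ℕ) := by
      have : d - 1 + 1 = d := by omega
      exact_mod_cast this
    rwa [e] at this
  obtain ⟨T, hT, hTc⟩ := Set.exists_subset_encard_eq h1
  have hTf : T.Finite := Set.finite_of_encard_eq_coe hTc
  have hc : hTf.toFinset.card = d := by
    have := hTf.encard_eq_coe_toFinset_card
    rw [hTc] at this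
    exact_mod_cast this.symm
  let e := (hTf.toFinset.equivFinOfCardEq hc).symm
  have hg : Function.Injective (fun a : Fin d => ((e a : hTf.toFinset) : F)) := fun a b h =>
    e.injective (Subtype.ext h)
  have h2 := curve_indep t ht _ hg
  have h3 : ∀ i, (Fin.cons (t 0) (fun a => ∑ i : Fin d, (((e a : hTf.toFinset) : F) ^ (i : ℕ)) •
      t i.succ) : Fin (d + 1) → V) i ∈ W := by
    refine Fin.cases ?_ ?_
    · simpa using h0
    · intro a
      have := hT ((hTf.mem_toFinset).1 (e a).2)
      simpa using this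
  have h4 : LinearIndependent F (fun i => (⟨_, h3 i⟩ : W)) :=
    LinearIndependent.of_comp W.subtype h2
  have h5 := h4.fintype_card_le_finrank
  rw [Fintype.card_fin] at h5
  omega

/-- points of the moment curve in a set which is a union of `n` subspaces of dimension at most `d`
and invariant under the translations by multiples of `t 0` -/
theorem union_count [Infinite F] {d n : ℕ} (hd : 0 < d) (t : Fin (d + 1) → V)
    (ht : LinearIndependent F t) (U : Fin n → Submodule F V)
    (hfin : ∀ i, FiniteDimensional F (U i)) (hU : ∀ i, finrank F (U i) ≤ d) (E : Set V)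
    (hE : E = ⋃ i, (U i : Set V)) (hadd : ∀ y ∈ E, ∀ c : F, y + c • t 0 ∈ E) :
    {j : F | ∑ i : Fin d, (j ^ (i : ℕ)) • t i.succ ∈ E}.encard ≤ ((d - 1) * n : ℕ) := by
  classical
  have key : ∀ i, ∃ k, U i ≤ U k ∧ t 0 ∈ U k := by
    intro i
    let W := U i ⊔ span F {t 0}
    have hW : ∀ y ∈ W, y ∈ E := by
      intro y hy
      obtain ⟨u, hu, z, hz, rfl⟩ := Submodule.mem_sup.1 hy
      obtain ⟨c, rfl⟩ := Submodule.mem_span_singleton.1 hz
      exact hadd u (by rw [hE]; exact Set.mem_iUnion.2 ⟨i, hu⟩) c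
    have hcov : ⋃ k, (((U k).comap W.subtype : Submodule F W) : Set W) = Set.univ := by
      ext ⟨y, hy⟩
      simp only [Set.mem_iUnion, Set.mem_univ, iff_true]
      have h1 := hW y hy
      rw [hE] at h1
      obtain ⟨k, hk⟩ := Set.mem_iUnion.1 h1
      exact ⟨k, hk⟩
    obtain ⟨k, hk⟩ := Subspace.exists_eq_top_of_iUnion_eq_univ hcov
    have h2 : W ≤ U k := by
      intro y hy
      have : (⟨y, hy⟩ : W) ∈ (U k).comap W.subtype := by rw [hk]; trivial
      exact this
    exact ⟨k, le_sup_left.trans h2, h2 (Submodule.mem_sup_right (mem_span_singleton_self _))⟩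
  choose κ hκ1 hκ2 using key
  have hcard : ∀ i, {j : F | ∑ a : Fin d, (j ^ (a : ℕ)) • t a.succ ∈ U (κ i)}.encard ≤
      (d - 1 : ℕ) := fun i => by
    have := hfin (κ i)
    exact curve_count hd t ht (U (κ i)) (hκ2 i) (hU (κ i))
  have hf : ∀ i, {j : F | ∑ a : Fin d, (j ^ (a : ℕ)) • t a.succ ∈ U (κ i)}.Finite := fun i =>
    Set.finite_of_encard_le_coe (hcard i)
  have hsub : {j : F | ∑ i : Fin d, (j ^ (i : ℕ)) • t i.succ ∈ E} ⊆
      ((Finset.univ.biUnion fun i => (hf i).toFinset : Finset F) : Set F) := by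
    intro j hj
    have hj' : ∑ i : Fin d, (j ^ (i : ℕ)) • t i.succ ∈ E := hj
    rw [hE] at hj'
    obtain ⟨i, hi⟩ := Set.mem_iUnion.1 hj'
    rw [Finset.mem_coe, Finset.mem_biUnion]
    exact ⟨i, Finset.mem_univ _, (hf i).mem_toFinset.2 (hκ1 i hi)⟩
  refine (Set.encard_le_encard hsub).trans ?_
  rw [Set.encard_coe_eq_coe_finsetCard]
  have h3 := Finset.card_biUnion_le_card_mul (Finset.univ : Finset (Fin n))
    (fun i => (hf i).toFinset) (d - 1) (fun i _ => by
      have h := hcard i
      rw [(hf i).encard_eq_coe_toFinset_card] at h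
      exact_mod_cast h)
  rw [Finset.card_univ, Fintype.card_fin, mul_comm] at h3
  exact_mod_cast h3

end Pool.Agent.QNX
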