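import Pool.Agent.QT.Pts

/-! # Relations of bounded degree and a change of the last number -/

namespace Pool.Agent.QNX

open MvPolynomial Pool.Agent.QT

theorem totalDegree_aeval_le {R σ τ : Type} [CommRing R] (f : σ → MvPolynomial τ R)
    (hf : ∀ i, (f i).totalDegree ≤ 1) (P : MvPolynomial σ R) :
    (aeval f P).totalDegree ≤ P.totalDegree := by
  classical
  rw [aeval_def, eval₂_eq]
  refine totalDegree_finsetSum_le fun m hm => ?_
  refine (totalDegree_mul _ _).trans ?_
  rw [MvPolynomial.algebraMap_eq, totalDegree_C, zero_add]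
  refine (totalDegree_finsetProd _ _).trans ?_
  refine le_trans ?_ (le_totalDegree hm)
  rw [Finsupp.sum]
  refine Finset.sum_le_sum fun i _ => (totalDegree_pow _ _).trans ?_
  have := Nat.mul_le_mul_left (m i) (hf i)
  omega

section

variable {K L : Type} [Field K] [Field L] [Algebra K L] {k d : ℕ}

private noncomputable def sub (c : K) (j : Fin k) : Fin (k + 1) → MvPolynomial (Fin (k + 1)) K :=
  Fin.cons (X 0 + C c * X j.succ) (fun i => X i.succ)

private theorem sub_degree (c : K) (j : Fin k) : ∀ i, (sub c j i).totalDegree ≤ 1 := by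
  refine Fin.cases ?_ ?_
  · simp only [sub, Fin.cons_zero]
    refine (totalDegree_add _ _).trans (max_le ?_ ((totalDegree_mul _ _).trans ?_))
    · rw [totalDegree_X]
    · rw [totalDegree_C, totalDegree_X]
  · intro i
    simp only [sub, Fin.cons_succ]
    rw [totalDegree_X]

private theorem sub_sub (c : K) (j : Fin k) (P : MvPolynomial (Fin (k + 1)) K) :
    aeval (sub c j) (aeval (sub (-c) j) P) = P := by
  rw [← AlgHom.comp_apply, comp_aeval]
  have : (fun i => (aeval (sub c j)) (sub (-c) j i)) = X := by
    funext i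
    refine Fin.cases ?_ ?_ i
    · simp [sub]
    · intro i
      simp [sub]
  rw [this, aeval_X_left_apply]

/-- if `x, y + c x_j` satisfy no relation of degree at most `d`, then `x, y` do not either -/
theorem good_shift (x : Fin k → L) (y : L) (c : K) (j : Fin k)
    (h : Good K d (Fin.cons (y + algebraMap K L c * x j) x : Fin (k + 1) → L)) :
    Good K d (Fin.cons y x : Fin (k + 1) → L) := by
  intro P hd hP
  have h1 := h (aeval (sub (-c) j) P) ((totalDegree_aeval_le _ (sub_degree _ _) P).trans hd) (by
    rw [← AlgHom.comp_apply, comp_aeval]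
    have : (fun i => (aeval (Fin.cons (y + algebraMap K L c * x j) x : Fin (k + 1) → L))
        (sub (-c) j i)) = (Fin.cons y x : Fin (k + 1) → L) := by
      funext i
      refine Fin.cases ?_ ?_ i
      · simp [sub]
      · intro i
        simp [sub]
    rw [this, hP])
  rw [← sub_sub c j P, h1, map_zero]

end

theorem one_var {x : ℂ} (hx : Transcendental ℚ x) (P : MvPolynomial (Fin 1) ℂ)
    (hP : ∀ m, IsAlgebraic ℚ (P.coeff m)) (h : eval (fun _ => x) P = 0) : P = 0 := by
  have hinj : Function.Injective (algebraMap (algebraicClosure ℚ ℂ) ℂ) :=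
    FaithfulSMul.algebraMap_injective _ _
  have h1 : P ∈ Set.range (MvPolynomial.map (σ := Fin 1) (algebraMap (algebraicClosure ℚ ℂ) ℂ)) := by
    rw [mem_range_map_iff_coeffs_subset]
    intro c hc
    obtain ⟨e, -, rfl⟩ := mem_coeffs_iff.1 (Finset.mem_coe.1 hc)
    exact ⟨⟨P.coeff e, mem_algebraicClosure_iff.2 (hP e)⟩, rfl⟩
  obtain ⟨Q, rfl⟩ := h1
  have h2 : Transcendental (algebraicClosure ℚ ℂ) x := by
    intro ha
    have : Algebra.IsAlgebraic ℚ (algebraicClosure ℚ ℂ) := algebraicClosure.isAlgebraic ℚ ℂ
    exact hx (ha.restrictScalars ℚ)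
  have h3 : AlgebraicIndependent (algebraicClosure ℚ ℂ) (fun _ : Fin 1 => x) := by
    rw [algebraicIndependent_unique_type_iff]
    exact h2
  have h4 : aeval (fun _ : Fin 1 => x) Q = 0 := by
    rw [eval_map] at h
    rwa [aeval_def]
  have h5 : Q = 0 := h3 (by rw [h4, map_zero])
  rw [h5, map_zero]

end Pool.Agent.QNX
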