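import Pool.Agent.QS.Fin
import Pool.Agent.QR.RankR
import Pool.Agent.QNX.Shift

/-! # A change of the last number by an algebraic multiple of another one -/

namespace Pool.Agent.QNX

open MvPolynomial Pool.Agent.QT Pool.Agent.QS

theorem badC_shift {k d : ℕ} (x : Fin k → ℂ) (y c : ℂ) (hc : IsAlgebraic ℚ c) (j : Fin k)
    (h : BadC d x y) : BadC d x (y + c * x j) := by
  rw [badC_iff] at h ⊢
  exact fun hg => h (good_shift x y ⟨c, mem_algebraicClosure_iff.2 hc⟩ j hg)

/-- an element of a free space is transcendental -/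
theorem transc {F : Subfield ℂ} {V : Submodule F ℂ} (hV : QR.Free (algebraicClosure ℚ ℂ) V)
    {x : ℂ} (hx : x ∈ V) (h0 : x ≠ 0) : Transcendental ℚ x := by
  intro ha
  have h1 := hV Unit (fun _ => x) (fun _ => hx) (by
    rw [linearIndependent_unique_iff]
    exact h0) (-⟨x, mem_algebraicClosure_iff.2 ha⟩) (fun _ => 1) (by simp)
  exact one_ne_zero (h1.2 ())

end Pool.Agent.QNX
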